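import Pool.Agent.Q295.TP.Tor

/-!
# The two-point criterion: sequences of times
-/

set_option autoImplicit false

namespace Pool.Agent.Q295.TP

open Finset Equiv Filter Topology
open Pool.Agent.Y998.ST
open Pool.Agent.Y998.LP (NN bfrac NN_nonneg law_inv tdist)
open Pool.Agent.Y998.CN (law_sum nn_trans)
open Pool.Agent.TH268.PD (top Cyc cyOf ret ret_spec pdm pdm_close lip_approx)

/-- the sum of the squares of the first `m` values, cut off -/
noncomputable def fsq (m : ℕ) (u : Fin m → ℝ) : ℝ := ∑ i, (max 0 (min 1 (u i))) ^ 2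

theorem fsq_cont (m : ℕ) : Continuous (fsq m) := by
  unfold fsq
  fun_prop

theorem fsq_abs (m : ℕ) (u : Fin m → ℝ) : |fsq m u| ≤ m := by
  unfold fsq
  have h1 : ∀ x : ℝ, (max 0 (min 1 x)) ^ 2 ≤ 1 := by
    intro x
    have h2 : 0 ≤ max 0 (min 1 x) := le_max_left _ _
    have h3 : max 0 (min 1 x) ≤ 1 := max_le zero_le_one (min_le_left _ _)
    nlinarith
  rw [abs_of_nonneg (Finset.sum_nonneg fun i _ => sq_nonneg _)]
  refine (Finset.sum_le_sum fun i _ => h1 (u i)).trans (le_of_eq ?_)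
  rw [Finset.sum_const, Finset.card_univ, Fintype.card_fin, nsmul_eq_mul, mul_one]

section gen

variable {V : Type} [Fintype V] [DecidableEq V] [Nonempty V]

theorem bfrac_sum (g : Perm V) [Fintype (Cyc g)] : ∑ γ : Cyc g, bfrac univ g γ = 1 := by
  classical
  simp only [bfrac_eq]
  rw [← Finset.sum_div, Finset.sum_comm]
  have h1 : ∀ x : V, ∑ γ : Cyc g, (if cyOf g x = γ then (1 : ℝ) else 0) = 1 := by
    intro x
    rw [Finset.sum_ite_eq, if_pos (Finset.mem_univ _)]
  rw [Finset.sum_congr rfl fun x _ => h1 x, Finset.sum_const, Finset.card_univ, nsmul_eq_mul,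
    mul_one]
  have : (Fintype.card V : ℝ) ≠ 0 := by exact_mod_cast Fintype.card_ne_zero
  exact div_self this

theorem fsq_top (g : Perm V) (m : ℕ) : fsq m (fun i => top (bfrac univ g) i) =
    ∑ i ∈ range m, top (bfrac univ g) i ^ 2 := by
  haveI : Finite (Cyc g) := Quotient.finite _
  unfold fsq
  rw [Finset.sum_range]
  refine Finset.sum_congr rfl fun i _ => ?_
  have h0 := Pool.Agent.TH268.PD.top_nonneg _ (Pool.Agent.Y998.LQ.bfrac_nonneg univ g) i
  have h1 := Pool.Agent.TH268.PD.top_le_one _ (Pool.Agent.Y998.LQ.bfrac_nonneg univ g)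
    (Pool.Agent.Y998.LQ.bfrac_le_one univ g) i
  rw [min_eq_right h1, max_eq_right h0]

theorem exp_ov_univ (J : V → V → ℝ) (t : ℝ) :
    stirExp J t (fun g => ov univ univ g) = qq2 J t := by
  rw [exp_ov, Finset.card_univ]
  unfold qq2
  rw [sq]

theorem fsq_le_ov (g : Perm V) (m : ℕ) :
    fsq m (fun i => top (bfrac univ g) i) ≤ ov univ univ g := by
  haveI : Finite (Cyc g) := Quotient.finite _
  haveI := Fintype.ofFinite (Cyc g)
  rw [fsq_top, ← ov_eq]
  refine (sq_ge _ m).trans (le_of_eq ?_)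
  exact Finset.sum_congr rfl fun γ _ => by ring

theorem ov_le_fsq (g : Perm V) (m : ℕ) :
    ov univ univ g ≤ fsq m (fun i => top (bfrac univ g) i) + 1 / ((m : ℝ) + 1) := by
  haveI : Finite (Cyc g) := Quotient.finite _
  haveI := Fintype.ofFinite (Cyc g)
  rw [fsq_top, ← ov_eq]
  refine le_trans (le_of_eq ?_) (sq_le _ (Pool.Agent.Y998.LQ.bfrac_nonneg univ g) (bfrac_sum g) m)
  exact Finset.sum_congr rfl fun γ _ => by ring

theorem exp_fsq_le {J : V → V → ℝ} (hJ : ∀ x y, 0 ≤ J x y) {t : ℝ} (ht : 0 ≤ t) (m : ℕ) :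
    stirExp J t (fun g => fsq m (fun i => top (bfrac univ g) i)) ≤ qq2 J t := by
  rw [← exp_ov_univ]
  exact exp_mono hJ ht fun g => fsq_le_ov g m

theorem le_exp_fsq {J : V → V → ℝ} (hJ : ∀ x y, 0 ≤ J x y) {t : ℝ} (ht : 0 ≤ t) (m : ℕ) :
    qq2 J t ≤ stirExp J t (fun g => fsq m (fun i => top (bfrac univ g) i)) +
      1 / ((m : ℝ) + 1) := by
  rw [← exp_ov_univ]
  have h1 := exp_mono hJ ht fun g => ov_le_fsq g m
  refine h1.trans (le_of_eq ?_)
  unfold stirExp
  simp only [mul_add]
  rw [Finset.sum_add_distrib, ← Finset.sum_mul, law_sum, one_mul]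

end gen

/-- mean square sum of the Poisson-Dirichlet(1) sequence, from below -/
theorem pdm_fsq (m : ℕ) : 1 / 2 - 1 / ((m : ℝ) + 1) ≤ pdm (fsq m) := by
  refine le_of_forall_pos_le_add fun ε hε => ?_
  obtain ⟨A, hA, hPD⟩ := ((Pool.Agent.Results.MP_b817cf_pr.LocalPoissonDirichlet.result 1
    le_rfl).2 m (fsq m) (fsq_cont m) m (fsq_abs m) (ε / 2) (by positivity)).2
  obtain ⟨C, hC, hdist⟩ := Pool.Agent.Y998.LQ.t_dist 1 le_rfl
  obtain ⟨L, hL⟩ := exists_nat_gt (max A 3)
  have hLA : A ≤ L := ((le_max_left _ _).trans_lt hL).le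
  have hL3R : (3 : ℝ) < L := (le_max_right _ _).trans_lt hL
  have hL3 : 3 ≤ L := by exact_mod_cast hL3R.le
  haveI : NeZero L := ⟨by omega⟩
  obtain ⟨t, ht⟩ : ∃ t : ℝ, t = A * (L : ℝ) ^ 2 + (4 * C * L / ε) ^ 2 + 1 := ⟨_, rfl⟩
  have ht1 : 1 ≤ t := by rw [ht]; have : 0 ≤ A * (L : ℝ) ^ 2 := by positivity
                         nlinarith [sq_nonneg (4 * C * L / ε)]
  have hAt : A * (L : ℝ) ^ 2 ≤ t := by rw [ht]; nlinarith [sq_nonneg (4 * C * L / ε)]
  have hsq : 4 * C * L / ε ≤ Real.sqrt t := by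
    apply Real.le_sqrt_of_sq_le
    rw [ht]
    have : 0 ≤ A * (L : ℝ) ^ 2 := by positivity
    linarith
  have hst : 0 < Real.sqrt t := Real.sqrt_pos.2 (by linarith)
  have h1 := hPD L hLA t hAt
  have h2 : stirExp (nnRate 1 L) t (fun g => fsq m (fun i : Fin m =>
      Pool.Agent.Results.MP_b817cf_pr.LocalPoissonDirichlet.cycleFrac g i)) =
      stirExp (nnRate 1 L) t (fun g => fsq m (fun i => top (bfrac univ g) i)) := by
    simp only [Pool.Agent.Results.MP_b817cf_pr.LocalPoissonDirichlet.frac_eq]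
  rw [h2, Pool.Agent.Results.MP_b817cf_pr.LocalPoissonDirichlet.pd_eq] at h1
  have h3 := le_exp_fsq (J := nnRate 1 L) nn_nonneg (show 0 ≤ t by linarith) m
  have h4 : 1 / 2 - ε / 2 ≤ qq2 (nnRate 1 L) t := by
    unfold qq2
    have hN : (0 : ℝ) < Fintype.card (Fin 1 → ZMod L) := by exact_mod_cast Fintype.card_pos
    rw [le_div_iff₀ (by positivity)]
    have h5 : ∀ x y : Fin 1 → ZMod L, 1 / 2 - ε / 2 ≤ gg (nnRate 1 L) t x y := by
      intro x y
      by_cases hxy : x = y
      · subst hxy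
        have : gg (nnRate 1 L) t x x = 1 := by
          unfold gg sm
          simp only [Perm.SameCycle.refl, if_true]
          exact exp_const _ _ _
        rw [this]
        linarith
      · classical
        have h6 := Pool.Agent.Results.MP_b817cf_pr.LocalPoissonDirichlet.two_points
          (nnRate 1 L) t x y hxy
        have h7 : gg (nnRate 1 L) t x y =
            stirExp (nnRate 1 L) t (fun g => if g.SameCycle x y then 1 else 0) := by
          unfold gg sm
          congr!
        have h8 := hdist L hL3 t (by linarith) x y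
        have h9 : (tdist x y : ℝ) ≤ L := by
          have := Pool.Agent.Results.MP_b817cf_pr.LocalPoissonDirichlet.dist_le x y
          have e2 : (tdist x y : ℝ) =
            Pool.Agent.Results.MP_b817cf_pr.LocalPoissonDirichlet.torusDist x y := rfl
          rw [e2]
          simpa using this
        have h10 : C * (tdist x y : ℝ) / Real.sqrt t ≤ ε / 4 := by
          rw [div_le_iff₀ hst]
          have h11 : C * (tdist x y : ℝ) ≤ C * L := mul_le_mul_of_nonneg_left h9 hC.le
          have h12 : ε / 4 * (4 * C * L / ε) = C * L := by field_simp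
          have h13 : ε / 4 * (4 * C * L / ε) ≤ ε / 4 * Real.sqrt t :=
            mul_le_mul_of_nonneg_left hsq (by positivity)
          linarith
        rw [h7]
        rw [abs_le] at h6
        linarith [h6.1]
    have h6 : ∀ x : Fin 1 → ZMod L, (Fintype.card (Fin 1 → ZMod L) : ℝ) * (1 / 2 - ε / 2) ≤
        ∑ y, gg (nnRate 1 L) t x y := by
      intro x
      have := Finset.card_nsmul_le_sum Finset.univ (fun y => gg (nnRate 1 L) t x y)
        (1 / 2 - ε / 2) (fun y _ => h5 x y)
      rwa [Finset.card_univ, nsmul_eq_mul] at this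
    have h7 := Finset.card_nsmul_le_sum Finset.univ (fun x => ∑ y, gg (nnRate 1 L) t x y) _
      (fun x _ => h6 x)
    rw [Finset.card_univ, nsmul_eq_mul] at h7
    nlinarith
  rw [abs_le] at h1
  linarith [h1.1]

end Pool.Agent.Q295.TP
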