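import Pool.Agent.TH268.PD.TopLip

/-!
# Sums over ordered values
-/

set_option autoImplicit false

namespace Pool.Agent.Q295.TP

open Finset
open Pool.Agent.TH268.PD (top top_set_bdd top_set_empty top_nonneg)

variable {Γ : Type} [Fintype Γ]

theorem top_anti (u : Γ → ℝ) (hu : ∀ γ, 0 ≤ u γ) (i : ℕ) : top u (i + 1) ≤ top u i := by
  have h0 := top_nonneg u hu i
  refine Real.sSup_le (fun x hx => ?_) h0
  simp only [Set.mem_ofPred_eq] at hx
  refine le_csSup (top_set_bdd u i) ?_
  simp only [Set.mem_ofPred_eq]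
  omega

theorem top_anti' (u : Γ → ℝ) (hu : ∀ γ, 0 ≤ u γ) (i j : ℕ) : top u (i + j) ≤ top u i := by
  induction j with
  | zero => exact le_rfl
  | succ j ih => exact (top_anti u hu (i + j)).trans ih

theorem exists_sort (u : Γ → ℝ) : ∃ e : Fin (Fintype.card Γ) ≃ Γ, Antitone (fun i => u (e i)) := by
  classical
  obtain ⟨e0⟩ := Fintype.truncEquivFin Γ
  obtain ⟨f, hf⟩ : ∃ f : Fin (Fintype.card Γ) → ℝ, f = fun i => -u (e0.symm i) := ⟨_, rfl⟩
  refine ⟨(Tuple.sort f).trans e0.symm, fun i j hij => ?_⟩
  have h := Tuple.monotone_sort f hij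
  rw [hf] at h
  simp only [Function.comp] at h
  simp only [Equiv.trans_apply]
  rw [hf]
  linarith

theorem top_sort (u : Γ → ℝ) (e : Fin (Fintype.card Γ) ≃ Γ)
    (he : Antitone (fun i => u (e i))) (i : Fin (Fintype.card Γ)) : top u i = u (e i) := by
  classical
  apply le_antisymm
  · have hne : {x : ℝ | (i : ℕ) + 1 ≤ Nat.card {γ : Γ // x ≤ u γ}}.Nonempty := by
      refine ⟨u (e i), ?_⟩
      simp only [Set.mem_ofPred_eq]
      have h1 : Nat.card (Fin ((i : ℕ) + 1)) ≤ Nat.card {γ : Γ // u (e i) ≤ u γ} := by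
        refine Nat.card_le_card_of_injective (fun j : Fin ((i : ℕ) + 1) =>
          (⟨e ⟨j, by have := j.2; have := i.2; omega⟩, he (by
            rw [Fin.le_def]
            have := j.2
            simp only
            omega)⟩ : {γ : Γ // u (e i) ≤ u γ})) ?_
        intro j j' hjj
        have h2 := congrArg Subtype.val hjj
        simp only at h2
        have h3 := e.injective h2
        rw [Fin.mk.injEq] at h3
        exact Fin.ext h3
      rwa [Nat.card_eq_fintype_card, Fintype.card_fin] at h1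
    refine csSup_le hne fun x hx => ?_
    simp only [Set.mem_ofPred_eq] at hx
    by_contra hlt
    push Not at hlt
    have h1 : Nat.card {γ : Γ // x ≤ u γ} ≤ Nat.card (Fin (i : ℕ)) := by
      refine Nat.card_le_card_of_injective (fun γ : {γ : Γ // x ≤ u γ} =>
        (⟨(e.symm γ.1 : ℕ), by
          by_contra hge
          push Not at hge
          have h2 : u (e (e.symm γ.1)) ≤ u (e i) := he (by rw [Fin.le_def]; exact hge)
          rw [Equiv.apply_symm_apply] at h2
          have := γ.2
          linarith⟩ : Fin (i : ℕ))) ?_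
      intro a b hab
      rw [Fin.mk.injEq] at hab
      exact Subtype.ext (e.symm.injective (Fin.ext hab))
    rw [Nat.card_eq_fintype_card (α := Fin (i : ℕ)), Fintype.card_fin] at h1
    omega
  · refine le_csSup (top_set_bdd u i) ?_
    simp only [Set.mem_ofPred_eq]
    have h1 : Nat.card (Fin ((i : ℕ) + 1)) ≤ Nat.card {γ : Γ // u (e i) ≤ u γ} := by
      refine Nat.card_le_card_of_injective (fun j : Fin ((i : ℕ) + 1) =>
        (⟨e ⟨j, by have := j.2; have := i.2; omega⟩, he (by
          rw [Fin.le_def]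
          have := j.2
          simp only
          omega)⟩ : {γ : Γ // u (e i) ≤ u γ})) ?_
      intro j j' hjj
      have h2 := congrArg Subtype.val hjj
      simp only at h2
      have h3 := e.injective h2
      rw [Fin.mk.injEq] at h3
      exact Fin.ext h3
    rwa [Nat.card_eq_fintype_card, Fintype.card_fin] at h1

theorem top_range (u : Γ → ℝ) (F : ℝ → ℝ) (hF : F 0 = 0) (n : ℕ)
    (hn : Fintype.card Γ ≤ n) : ∑ i ∈ range n, F (top u i) = ∑ γ, F (u γ) := by
  obtain ⟨e, he⟩ := exists_sort u
  obtain ⟨k, rfl⟩ := Nat.exists_eq_add_of_le hn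
  rw [Finset.sum_range_add]
  have h1 : ∑ i ∈ range k, F (top u (Fintype.card Γ + i)) = 0 := by
    refine Finset.sum_eq_zero fun i _ => ?_
    have h2 : top u (Fintype.card Γ + i) = 0 := by
      unfold top
      rw [top_set_empty u _ (by rw [Nat.card_eq_fintype_card]; omega), Real.sSup_empty]
    rw [h2, hF]
  rw [h1, add_zero, Finset.sum_range, ← Equiv.sum_comp e]
  exact Finset.sum_congr rfl fun i _ => by rw [top_sort u e he i]

theorem sq_ge (u : Γ → ℝ) (m : ℕ) :
    ∑ i ∈ range m, top u i ^ 2 ≤ ∑ γ, u γ ^ 2 := by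
  rw [← top_range u (fun x => x ^ 2) (by norm_num) (m + Fintype.card Γ) (by omega),
    Finset.sum_range_add]
  have : 0 ≤ ∑ i ∈ range (Fintype.card Γ), top u (m + i) ^ 2 :=
    Finset.sum_nonneg fun i _ => sq_nonneg _
  linarith

theorem sq_le (u : Γ → ℝ) (hu : ∀ γ, 0 ≤ u γ) (h1 : ∑ γ, u γ = 1) (m : ℕ) :
    ∑ γ, u γ ^ 2 ≤ ∑ i ∈ range m, top u i ^ 2 + 1 / ((m : ℝ) + 1) := by
  have hm : ((m : ℝ) + 1) * top u m ≤ 1 := by
    have h2 := top_range u (fun x => x) rfl (m + 1 + Fintype.card Γ) (by omega)
    rw [Finset.sum_range_add, h1] at h2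
    have h3 : 0 ≤ ∑ i ∈ range (Fintype.card Γ), top u (m + 1 + i) :=
      Finset.sum_nonneg fun i _ => top_nonneg u hu _
    have h4 : ((m : ℝ) + 1) * top u m ≤ ∑ i ∈ range (m + 1), top u i := by
      have h5 : ∑ _i ∈ range (m + 1), top u m ≤ ∑ i ∈ range (m + 1), top u i := by
        refine Finset.sum_le_sum fun i hi => ?_
        rw [Finset.mem_range] at hi
        obtain ⟨j, hj⟩ := Nat.exists_eq_add_of_le (show i ≤ m by omega)
        rw [hj]
        exact top_anti' u hu i j
      rw [Finset.sum_const, Finset.card_range, nsmul_eq_mul] at h5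
      push_cast at h5
      exact h5
    linarith
  have htm : top u m ≤ 1 / ((m : ℝ) + 1) := by
    rw [le_div_iff₀ (by positivity)]
    linarith
  rw [← top_range u (fun x => x ^ 2) (by norm_num) (m + Fintype.card Γ) (by omega),
    Finset.sum_range_add]
  have h6 : ∑ i ∈ range (Fintype.card Γ), top u (m + i) ^ 2 ≤ top u m := by
    have h7 : ∀ i ∈ range (Fintype.card Γ), top u (m + i) ^ 2 ≤ top u m * top u (m + i) := by
      intro i _
      have h8 := top_anti' u hu m i
      have h9 := top_nonneg u hu (m + i)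
      nlinarith
    refine (Finset.sum_le_sum h7).trans ?_
    rw [← Finset.mul_sum]
    have h10 : ∑ i ∈ range (Fintype.card Γ), top u (m + i) ≤ 1 := by
      have h2 := top_range u (fun x => x) rfl (m + Fintype.card Γ) (by omega)
      rw [Finset.sum_range_add, h1] at h2
      have h3 : 0 ≤ ∑ i ∈ range m, top u i :=
        Finset.sum_nonneg fun i _ => top_nonneg u hu _
      linarith
    exact mul_le_of_le_one_right (top_nonneg u hu m) h10
  linarith

end Pool.Agent.Q295.TP
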