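import Pool.Agent.Q295.TP.Gen
import Pool.Agent.Q295.TP.Sq
import Pool.Agent.Y259.PD.BOX

/-!
# The two-point criterion on the torus
-/

set_option autoImplicit false

namespace Pool.Agent.Q295.TP

open Finset Equiv Filter Topology
open Pool.Agent.Y998.ST
open Pool.Agent.Y998.LP (NN bfrac NN_nonneg law_inv tdist)
open Pool.Agent.Y998.CN (law_sum nn_trans)
open Pool.Agent.TH268.PD (top Cyc cyOf ret ret_spec pdm pdm_close lip_approx)

theorem sm_conj {V : Type} [Fintype V] [DecidableEq V] (g s : Perm V) (x y : V) :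
    sm (s * g * s⁻¹) (s x) (s y) = sm g x y := by
  unfold sm
  have h1 : ∀ z, s⁻¹ (s z) = z := fun z => s.symm_apply_apply z
  have h2 : (s * g * s⁻¹).SameCycle (s x) (s y) ↔ g.SameCycle x y := by
    rw [Perm.sameCycle_conj, h1, h1]
  by_cases hg : g.SameCycle x y
  · rw [if_pos (h2.2 hg), if_pos hg]
  · rw [if_neg (fun h' => hg (h2.1 h')), if_neg hg]

theorem gg_trans {d L : ℕ} [NeZero L] (t : ℝ) (x y z : Fin d → ZMod L) :
    gg (nnRate d L) t (x + z) (y + z) = gg (nnRate d L) t x y := by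
  unfold gg stirExp
  rw [← Equiv.sum_comp (MulAut.conj (Equiv.addRight z)).toEquiv]
  refine Finset.sum_congr rfl fun g _ => ?_
  have e1 : (MulAut.conj (Equiv.addRight z)).toEquiv g =
    Equiv.addRight z * g * (Equiv.addRight z)⁻¹ := rfl
  have e2 : ∀ w : Fin d → ZMod L, w + z = Equiv.addRight z w := fun w => rfl
  rw [e1, Pool.Agent.Y998.CN.law_conj (Equiv.addRight z) (fun a b => nn_trans a b z), e2, e2]
  beta_reduce
  rw [sm_conj]

theorem row_const {d L : ℕ} [NeZero L] (t : ℝ) (x x' : Fin d → ZMod L) :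
    ∑ y, gg (nnRate d L) t x y = ∑ y, gg (nnRate d L) t x' y := by
  rw [← Equiv.sum_comp (Equiv.addRight (x' - x)) (fun y => gg (nnRate d L) t x' y)]
  refine Finset.sum_congr rfl fun y _ => ?_
  have e2 : Equiv.addRight (x' - x) y = y + (x' - x) := rfl
  rw [e2, ← gg_trans t x y (x' - x), add_sub_cancel]

theorem exists_box {d L : ℕ} [NeZero L] {r : ℕ} (h1 : 1 ≤ r) (h2 : r ≤ L) (x : Fin d → ZMod L) :
    ∃ A : Finset (Fin d → ZMod L), x ∈ A ∧ A.card = r ^ d ∧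
      ∀ y ∈ A, ∀ z ∈ A, tdist y z ≤ d * r := by
  classical
  obtain ⟨Q, hQ, hQd⟩ := Pool.Agent.Y259.PD.BOX.main d L r h1 h2
  have hpos : 0 < Q.card := by rw [hQ]; exact pow_pos h1 d
  obtain ⟨q0, hq0⟩ := Finset.card_pos.1 hpos
  refine ⟨Q.image (fun q => q + (x - q0)), ?_, ?_, ?_⟩
  · rw [Finset.mem_image]
    exact ⟨q0, hq0, by abel⟩
  · rw [Finset.card_image_of_injective _ (add_left_injective _), hQ]
  · intro y hy z hz
    rw [Finset.mem_image] at hy hz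
    obtain ⟨a, ha, rfl⟩ := hy
    obtain ⟨b, hb, rfl⟩ := hz
    have h3 := hQd a ha b hb
    have h4 : tdist (a + (x - q0)) (b + (x - q0)) = Pool.Agent.Y661.PD.tdist a b := by
      unfold tdist Pool.Agent.Y661.PD.tdist
      refine Finset.sum_congr rfl fun i _ => ?_
      congr 2
      simp only [Pi.add_apply]
      ring
    rw [h4]
    exact h3

/-- the exponent -/
noncomputable def kap (d : ℕ) : ℝ := d / (2 * (d + 1))

/-- the error of the choice of the scale -/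
noncomputable def sc (d L : ℕ) (t : ℝ) : ℝ := t ^ (-kap d) + 1 / (L : ℝ) ^ d

theorem sc_nonneg (d L : ℕ) {t : ℝ} (ht : 0 ≤ t) : 0 ≤ sc d L t := by
  unfold sc; positivity

theorem sc_le_two {d L : ℕ} (hL : 1 ≤ L) {t : ℝ} (ht : 1 ≤ t) : sc d L t ≤ 2 := by
  unfold sc
  have hLR : (1 : ℝ) ≤ L := by exact_mod_cast hL
  have h1 : t ^ (-kap d) ≤ 1 := by
    refine Real.rpow_le_one_of_one_le_of_nonpos ht ?_
    unfold kap
    rw [neg_nonpos]
    positivity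
  have h2 : 1 / (L : ℝ) ^ d ≤ 1 := by
    rw [div_le_one (by positivity)]
    exact one_le_pow₀ hLR
  linarith

/-- choice of the scale -/
theorem scale (d : ℕ) (hd : 1 ≤ d) : ∃ C : ℝ, 1 ≤ C ∧ ∀ (L : ℕ) [NeZero L], 3 ≤ L →
    ∀ t : ℝ, 1 ≤ t → ∃ (r : ℕ) (η : ℝ), 1 ≤ r ∧ r ≤ L ∧ 0 ≤ η ∧ η ≤ C * sc d L t ∧
      1 / ((r ^ d : ℕ) : ℝ) ≤ sc d L t ∧
      ∀ x y : Fin d → ZMod L, tdist x y ≤ d * r → NN (nnRate d L) t (swap x y) ≤ η := by
  obtain ⟨C, hC, hdist⟩ := Pool.Agent.Y998.LQ.t_dist d hd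
  have hdR : (1 : ℝ) ≤ d := by exact_mod_cast hd
  refine ⟨2 * C * d + 1, by have : 0 < 2 * C * d := by positivity
                            linarith, fun L _ hL t ht => ?_⟩
  have ht0 : 0 < t := by linarith
  have hst : 0 < Real.sqrt t := Real.sqrt_pos.2 ht0
  have hL3 : (3 : ℝ) ≤ L := by exact_mod_cast hL
  obtain ⟨a, ha⟩ : ∃ a : ℝ, a = 1 / (2 * ((d : ℝ) + 1)) := ⟨_, rfl⟩
  have ha0 : 0 < a := by rw [ha]; positivity
  have hta : 1 ≤ t ^ a := Real.one_le_rpow ht ha0.le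
  obtain ⟨r0, hr0⟩ : ∃ r0 : ℕ, r0 = ⌈t ^ a⌉₊ := ⟨_, rfl⟩
  have hr1 : t ^ a ≤ r0 := by rw [hr0]; exact Nat.le_ceil _
  have hr2 : (r0 : ℝ) ≤ 2 * t ^ a := by
    have := Nat.ceil_lt_add_one (show 0 ≤ t ^ a by positivity)
    rw [← hr0] at this
    linarith
  have hr3 : 1 ≤ r0 := by
    have : (1 : ℝ) ≤ r0 := hta.trans hr1
    exact_mod_cast this
  obtain ⟨r, hr⟩ : ∃ r : ℕ, r = min L r0 := ⟨_, rfl⟩
  have hrL : r ≤ L := by rw [hr]; exact min_le_left _ _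
  have hrr : r ≤ r0 := by rw [hr]; exact min_le_right _ _
  have hr1' : 1 ≤ r := by rw [hr]; exact le_min (by omega) hr3
  have hrrR : (r : ℝ) ≤ 2 * t ^ a := le_trans (by exact_mod_cast hrr) hr2
  have hexp : t ^ a / Real.sqrt t = t ^ (-kap d) := by
    rw [Real.sqrt_eq_rpow, ← Real.rpow_sub ht0]
    congr 1
    rw [ha]
    unfold kap
    field_simp
    ring
  refine ⟨r, C * (d * r) / Real.sqrt t, hr1', hrL, by positivity, ?_, ?_, ?_⟩
  · have h1 : C * (d * r) / Real.sqrt t ≤ C * (d * (2 * t ^ a)) / Real.sqrt t := by gcongr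
    have h2 : C * (d * (2 * t ^ a)) / Real.sqrt t = 2 * C * d * (t ^ a / Real.sqrt t) := by ring
    rw [h2, hexp] at h1
    refine h1.trans ?_
    unfold sc
    have h3 : 0 ≤ t ^ (-kap d) := by positivity
    have h4 : 0 ≤ 1 / (L : ℝ) ^ d := by positivity
    have h5 : 0 < 2 * C * d := by positivity
    nlinarith
  · have h1 : ((r ^ d : ℕ) : ℝ) = (r : ℝ) ^ d := by push_cast; rfl
    rw [h1]
    unfold sc
    rcases le_total L r0 with h | h
    · have h2 : r = L := by rw [hr]; exact min_eq_left h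
      rw [h2]
      have h3 : 0 ≤ t ^ (-kap d) := by positivity
      linarith
    · have h2 : r = r0 := by rw [hr]; exact min_eq_right h
      rw [h2]
      have h3 : 1 / (r0 : ℝ) ^ d ≤ 1 / (t ^ a) ^ d := by
        apply one_div_le_one_div_of_le (by positivity)
        exact pow_le_pow_left₀ (by positivity) hr1 d
      have h4 : 1 / (t ^ a) ^ d = t ^ (-kap d) := by
        rw [← Real.rpow_natCast, ← Real.rpow_mul ht0.le, one_div, ← Real.rpow_neg ht0.le]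
        congr 1
        rw [ha]
        unfold kap
        field_simp
      rw [h4] at h3
      have h5 : 0 ≤ 1 / (L : ℝ) ^ d := by positivity
      linarith
  · intro x y hxy
    refine (hdist L hL t ht0 x y).trans ?_
    have h1 : (tdist x y : ℝ) ≤ d * r := by exact_mod_cast hxy
    gcongr

/-- (1) the two-point probability is at most `1/2` -/
theorem upper (d : ℕ) (hd : 1 ≤ d) : ∃ C : ℝ, 1 ≤ C ∧ ∀ (L : ℕ) [NeZero L], 3 ≤ L →
    ∀ t : ℝ, 1 ≤ t → qq2 (nnRate d L) t ≤ 1 / 2 + C * sc d L t := by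
  obtain ⟨C, hC, h⟩ := scale d hd
  refine ⟨1 + 2 * C, by linarith, fun L _ hL t ht => ?_⟩
  obtain ⟨r, η, hr1, hrL, hη0, hη1, hr2, hNN⟩ := h L hL t ht
  obtain ⟨A, _, hAc, hAd⟩ := exists_box (d := d) hr1 hrL 0
  have hpos : 0 < A.card := by rw [hAc]; exact pow_pos hr1 d
  have h1 := qq2_le (J := nnRate d L) nn_nonneg (by linarith) (row_const t) A hpos η hη0
    (fun x hx y hy => hNN x y (hAd x hx y hy))
  rw [hAc] at h1
  linarith

/-- (2) points at arbitrary positions -/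
theorem k_points (d : ℕ) (hd : 1 ≤ d) (k : ℕ) : ∃ C : ℝ, 0 < C ∧ ∀ (L : ℕ) [NeZero L], 3 ≤ L →
    ∀ t : ℝ, 1 ≤ t → ∀ (b : Fin k → Fin d → ZMod L), Function.Injective b →
    ∀ R : Fin k → Fin k → Prop, |PR (nnRate d L) t R b - uR R| ≤
      C * Real.sqrt (sc d L t + max 0 (1 / 2 - qq2 (nnRate d L) t)) := by
  obtain ⟨C, hC, h⟩ := scale d hd
  refine ⟨6 * k * C + 6 * k ^ 2 + 2 * k * (1 + 2 * C) + 1, by positivity,
    fun L _ hL t ht b hb R => ?_⟩
  obtain ⟨r, η, hr1, hrL, hη0, hη1, hr2, hNN⟩ := h L hL t ht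
  have hbox : ∀ x : Fin d → ZMod L, ∃ A : Finset (Fin d → ZMod L), x ∈ A ∧ A.card = r ^ d ∧
      ∀ y ∈ A, ∀ z ∈ A, tdist y z ≤ d * r := fun x => exists_box hr1 hrL x
  choose A hA1 hA2 hA3 using hbox
  have hn : 0 < r ^ d := pow_pos hr1 d
  have h1 := points (J := nnRate d L) nn_nonneg (by linarith) (row_const t) R b hb
    (A := fun i => A (b i)) hn (fun i => hA2 _) η hη0 (fun i => hA1 _)
    (fun i x hx y hy => hNN x y (hA3 _ x hx y hy)) (B := A 0) (hA2 0)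
    (fun x hx y hy => hNN x y (hA3 _ x hx y hy))
  refine h1.trans ?_
  obtain ⟨s, hs⟩ : ∃ s, s = sc d L t := ⟨_, rfl⟩
  obtain ⟨q, hq⟩ : ∃ q, q = qq2 (nnRate d L) t := ⟨_, rfl⟩
  obtain ⟨n, hnn⟩ : ∃ n : ℝ, n = ((r ^ d : ℕ) : ℝ) := ⟨_, rfl⟩
  rw [← hs] at hη1 hr2
  rw [← hs, ← hq]
  rw [← hnn] at hr2
  rw [← hnn]
  have hs0 : 0 ≤ s := by rw [hs]; exact sc_nonneg d L (by linarith)
  have hs2 : s ≤ 2 := by rw [hs]; exact sc_le_two (by omega) ht
  have hm0 : 0 ≤ max 0 (1 / 2 - q) := le_max_left _ _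
  have hm1 : 1 / 2 - q ≤ max 0 (1 / 2 - q) := le_max_right _ _
  obtain ⟨S, hS⟩ : ∃ S, S = Real.sqrt (s + max 0 (1 / 2 - q)) := ⟨_, rfl⟩
  have hS0 : 0 ≤ S := by rw [hS]; exact Real.sqrt_nonneg _
  have hsS : s ≤ 2 * S := by
    have h2 : Real.sqrt s ≤ S := by
      rw [hS]
      exact Real.sqrt_le_sqrt (by linarith)
    have h3 : s = Real.sqrt s * Real.sqrt s := (Real.mul_self_sqrt hs0).symm
    have h4 : Real.sqrt s ≤ 2 := by
      rw [Real.sqrt_le_left (by norm_num)]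
      linarith
    have h5 := Real.sqrt_nonneg s
    nlinarith
  have hroot : Real.sqrt (1 / n + (1 / 2 + 2 * η) - q) ≤ (1 + 2 * C) * S := by
    have h2 : 1 / n + (1 / 2 + 2 * η) - q ≤ (1 + 2 * C) ^ 2 * (s + max 0 (1 / 2 - q)) := by
      have h3 : 1 / n + (1 / 2 + 2 * η) - q ≤ (1 + 2 * C) * s + max 0 (1 / 2 - q) := by linarith
      have h4 : (1 + 2 * C) * s ≤ (1 + 2 * C) ^ 2 * s := by
        refine mul_le_mul_of_nonneg_right ?_ hs0
        nlinarith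
      have h5 : max 0 (1 / 2 - q) ≤ (1 + 2 * C) ^ 2 * max 0 (1 / 2 - q) := by
        refine le_mul_of_one_le_left hm0 ?_
        nlinarith
      linarith
    refine (Real.sqrt_le_sqrt h2).trans ?_
    rw [Real.sqrt_mul (sq_nonneg _), Real.sqrt_sq (by linarith), ← hS]
  have hk0 : (0 : ℝ) ≤ k := Nat.cast_nonneg k
  have e1 : 3 * k * η ≤ 6 * k * C * S := by
    calc 3 * k * η ≤ 3 * k * (C * s) := by gcongr
      _ ≤ 3 * k * (C * (2 * S)) := by gcongr
      _ = _ := by ring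
  have e2 : 3 * ((k : ℝ) ^ 2 / n) ≤ 6 * k ^ 2 * S := by
    calc 3 * ((k : ℝ) ^ 2 / n) = 3 * (k : ℝ) ^ 2 * (1 / n) := by ring
      _ ≤ 3 * (k : ℝ) ^ 2 * s := by gcongr
      _ ≤ 3 * (k : ℝ) ^ 2 * (2 * S) := by gcongr
      _ = _ := by ring
  have e3 : 2 * ((k : ℝ) * Real.sqrt (1 / n + (1 / 2 + 2 * η) - q)) ≤
      2 * k * (1 + 2 * C) * S := by
    calc 2 * ((k : ℝ) * Real.sqrt (1 / n + (1 / 2 + 2 * η) - q)) ≤
        2 * ((k : ℝ) * ((1 + 2 * C) * S)) := by gcongr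
      _ = _ := by ring
  rw [← hS]
  linarith

end Pool.Agent.Q295.TP
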