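import Pool.Agent.Y998.LQ.Final

/-!
# Overlaps of the cycle fractions of two sets

`ov A B g` is the probability that independent uniform points of `A` and of `B` are in the same
cycle of `g`; `dd A B g` is the squared `ℓ²` distance of the cycle fractions of `A` and `B`.
-/

set_option autoImplicit false

namespace Pool.Agent.Q295.TP

open Finset Equiv
open Pool.Agent.Y998.ST
open Pool.Agent.Y998.LP (NN bfrac NN_nonneg law_inv)
open Pool.Agent.Y998.CN (law_sum)
open Pool.Agent.TH268.PD (top Cyc cyOf)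

variable {V : Type} [Fintype V] [DecidableEq V]

open Classical in
/-- indicator of the event that `x` and `y` are in the same cycle -/
noncomputable def sm (g : Perm V) (x y : V) : ℝ := if g.SameCycle x y then 1 else 0

/-- overlap of two sets -/
noncomputable def ov (A B : Finset V) (g : Perm V) : ℝ :=
  (∑ x ∈ A, ∑ y ∈ B, sm g x y) / (A.card * B.card)

/-- squared distance of the cycle fractions of two sets -/
noncomputable def dd (A B : Finset V) (g : Perm V) : ℝ := ov A A g - 2 * ov A B g + ov B B g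

theorem cy_iff (g : Perm V) (x y : V) : cyOf g x = cyOf g y ↔ g.SameCycle x y := Quotient.eq

open Classical in
theorem bfrac_eq (B : Finset V) (g : Perm V) (γ : Cyc g) :
    bfrac B g γ = (∑ x ∈ B, if cyOf g x = γ then (1 : ℝ) else 0) / B.card := by
  unfold bfrac
  congr 1
  rw [Finset.sum_boole, Nat.card_eq_fintype_card, Fintype.card_subtype]
  congr 2
  ext v
  simp

open Classical in
theorem ov_eq (A B : Finset V) (g : Perm V) [Fintype (Cyc g)] :
    ∑ γ : Cyc g, bfrac A g γ * bfrac B g γ = ov A B g := by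
  have h1 : ∀ γ : Cyc g, bfrac A g γ * bfrac B g γ =
      (∑ x ∈ A, ∑ y ∈ B, (if cyOf g x = γ then (1 : ℝ) else 0) *
        (if cyOf g y = γ then (1 : ℝ) else 0)) / (A.card * B.card) := by
    intro γ
    rw [bfrac_eq, bfrac_eq, div_mul_div_comm, Finset.sum_mul_sum]
  rw [Finset.sum_congr rfl fun γ _ => h1 γ, ← Finset.sum_div]
  unfold ov
  congr 1
  rw [Finset.sum_comm]
  refine Finset.sum_congr rfl fun x _ => ?_
  rw [Finset.sum_comm]
  refine Finset.sum_congr rfl fun y _ => ?_
  have h2 : ∀ γ : Cyc g, (if cyOf g x = γ then (1 : ℝ) else 0) *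
      (if cyOf g y = γ then (1 : ℝ) else 0) = if cyOf g x = γ then
        (if cyOf g y = cyOf g x then 1 else 0) else 0 := by
    intro γ
    by_cases h : cyOf g x = γ
    · rw [if_pos h, if_pos h, one_mul, h]
    · rw [if_neg h, if_neg h, zero_mul]
  rw [Finset.sum_congr rfl fun γ _ => h2 γ, Finset.sum_ite_eq, if_pos (Finset.mem_univ _)]
  unfold sm
  have h3 : (cyOf g y = cyOf g x) ↔ g.SameCycle x y := by
    rw [cy_iff]
    exact ⟨fun h => h.symm, fun h => h.symm⟩
  simp only [h3]

theorem ov_comm (A B : Finset V) (g : Perm V) : ov A B g = ov B A g := by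
  classical
  haveI : Finite (Cyc g) := Quotient.finite _
  haveI := Fintype.ofFinite (Cyc g)
  rw [← ov_eq, ← ov_eq]
  exact Finset.sum_congr rfl fun γ _ => mul_comm _ _

theorem dd_eq (A B : Finset V) (g : Perm V) [Fintype (Cyc g)] :
    ∑ γ : Cyc g, (bfrac A g γ - bfrac B g γ) ^ 2 = dd A B g := by
  unfold dd
  rw [← ov_eq A A, ← ov_eq A B, ← ov_eq B B, Finset.mul_sum, ← Finset.sum_sub_distrib,
    ← Finset.sum_add_distrib]
  refine Finset.sum_congr rfl fun γ _ => ?_
  ring

theorem dd_nonneg (A B : Finset V) (g : Perm V) : 0 ≤ dd A B g := by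
  haveI : Finite (Cyc g) := Quotient.finite _
  haveI := Fintype.ofFinite (Cyc g)
  rw [← dd_eq]
  exact Finset.sum_nonneg fun γ _ => sq_nonneg _

theorem dd_symm (A B : Finset V) (g : Perm V) : dd A B g = dd B A g := by
  unfold dd
  rw [ov_comm A B]
  ring

theorem frac_close (A B : Finset V) (g : Perm V) (γ : Cyc g) :
    |bfrac A g γ - bfrac B g γ| ≤ Real.sqrt (dd A B g) := by
  haveI : Finite (Cyc g) := Quotient.finite _
  haveI := Fintype.ofFinite (Cyc g)
  apply Real.abs_le_sqrt
  rw [← dd_eq]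
  exact Finset.single_le_sum (f := fun γ => (bfrac A g γ - bfrac B g γ) ^ 2)
    (fun γ _ => sq_nonneg _) (Finset.mem_univ γ)

theorem top_close (A B : Finset V) (g : Perm V) (i : ℕ) :
    |top (bfrac A g) i - top (bfrac B g) i| ≤ Real.sqrt (dd A B g) := by
  haveI : Finite (Cyc g) := Quotient.finite _
  exact Pool.Agent.TH268.PD.top_lip _ _ (Pool.Agent.Y998.LQ.bfrac_nonneg A g)
    (Pool.Agent.Y998.LQ.bfrac_nonneg B g) _ (Real.sqrt_nonneg _) (frac_close A B g) i

/-! ### expectations -/

/-- two-point function -/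
noncomputable def gg (J : V → V → ℝ) (t : ℝ) (x y : V) : ℝ := stirExp J t (fun g => sm g x y)

/-- the probability that two independent uniform points are in the same cycle -/
noncomputable def qq2 (J : V → V → ℝ) (t : ℝ) : ℝ :=
  (∑ x, ∑ y, gg J t x y) / (Fintype.card V : ℝ) ^ 2

theorem exp_sq_le {J : V → V → ℝ} (hJ : ∀ x y, 0 ≤ J x y) {t : ℝ} (ht : 0 ≤ t)
    (F : Perm V → ℝ) (hF : ∀ g, 0 ≤ F g) :
    stirExp J t (fun g => Real.sqrt (F g)) ≤ Real.sqrt (stirExp J t F) := by
  apply Real.le_sqrt_of_sq_le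
  unfold stirExp
  have h1 := Finset.sum_mul_sq_le_sq_mul_sq Finset.univ (fun g => Real.sqrt (stirLaw J t g))
    (fun g => Real.sqrt (stirLaw J t g) * Real.sqrt (F g))
  have h2 : ∀ g, Real.sqrt (stirLaw J t g) * (Real.sqrt (stirLaw J t g) * Real.sqrt (F g)) =
      stirLaw J t g * Real.sqrt (F g) := by
    intro g
    rw [← mul_assoc, Real.mul_self_sqrt (law_nonneg hJ ht g)]
  have h3 : ∀ g, Real.sqrt (stirLaw J t g) ^ 2 = stirLaw J t g :=
    fun g => Real.sq_sqrt (law_nonneg hJ ht g)
  have h4 : ∀ g, (Real.sqrt (stirLaw J t g) * Real.sqrt (F g)) ^ 2 = stirLaw J t g * F g := by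
    intro g
    rw [mul_pow, Real.sq_sqrt (law_nonneg hJ ht g), Real.sq_sqrt (hF g)]
  simp only [h2, h3, h4] at h1
  rw [law_sum, one_mul] at h1
  exact h1

theorem exp_ov (J : V → V → ℝ) (t : ℝ) (A B : Finset V) :
    stirExp J t (fun g => ov A B g) = (∑ x ∈ A, ∑ y ∈ B, gg J t x y) / (A.card * B.card) := by
  unfold gg
  simp only [exp_sum]
  unfold stirExp ov
  rw [Finset.sum_div]
  exact Finset.sum_congr rfl fun g _ => by ring

theorem exp_dd (J : V → V → ℝ) (t : ℝ) (A B : Finset V) :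
    stirExp J t (fun g => dd A B g) = stirExp J t (fun g => ov A A g) -
      2 * stirExp J t (fun g => ov A B g) + stirExp J t (fun g => ov B B g) := by
  unfold stirExp dd
  rw [Finset.mul_sum, ← Finset.sum_sub_distrib, ← Finset.sum_add_distrib]
  exact Finset.sum_congr rfl fun g _ => by ring

theorem sm_nonneg (g : Perm V) (x y : V) : 0 ≤ sm g x y := by
  unfold sm; split_ifs <;> norm_num

theorem sm_le_one (g : Perm V) (x y : V) : sm g x y ≤ 1 := by
  unfold sm; split_ifs <;> norm_num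

theorem gg_nonneg {J : V → V → ℝ} (hJ : ∀ x y, 0 ≤ J x y) {t : ℝ} (ht : 0 ≤ t) (x y : V) :
    0 ≤ gg J t x y := exp_nonneg hJ ht fun g => sm_nonneg g x y

theorem gg_le_one {J : V → V → ℝ} (hJ : ∀ x y, 0 ≤ J x y) {t : ℝ} (ht : 0 ≤ t) (x y : V) :
    gg J t x y ≤ 1 := by
  unfold gg
  refine (exp_mono hJ ht fun g => sm_le_one g x y).trans ?_
  rw [exp_const]

/-- the expected squared distance of a set and the whole space -/
theorem exp_dd_univ [Nonempty V] {J : V → V → ℝ} {t : ℝ}
    (hT : ∀ x x', ∑ y, gg J t x y = ∑ y, gg J t x' y) (A : Finset V) (hA : 0 < A.card) :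
    stirExp J t (fun g => dd A univ g) = stirExp J t (fun g => ov A A g) - qq2 J t := by
  have hN : (0 : ℝ) < Fintype.card V := by exact_mod_cast Fintype.card_pos
  have hAR : (0 : ℝ) < A.card := by exact_mod_cast hA
  obtain ⟨x0⟩ := (inferInstance : Nonempty V)
  obtain ⟨S, hS⟩ : ∃ S, S = ∑ y, gg J t x0 y := ⟨_, rfl⟩
  have h1 : ∀ x, ∑ y, gg J t x y = S := fun x => by rw [hS]; exact hT x x0
  have h2 : stirExp J t (fun g => ov univ univ g) = S / Fintype.card V := by
    rw [exp_ov, Finset.sum_congr rfl fun x _ => h1 x, Finset.sum_const, Finset.card_univ,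
      nsmul_eq_mul]
    field_simp
  have h3 : stirExp J t (fun g => ov A univ g) = S / Fintype.card V := by
    rw [exp_ov, Finset.sum_congr rfl fun x _ => h1 x, Finset.sum_const, Finset.card_univ,
      nsmul_eq_mul]
    field_simp
  have h4 : qq2 J t = S / Fintype.card V := by
    unfold qq2
    rw [Finset.sum_congr rfl fun x _ => h1 x, Finset.sum_const, Finset.card_univ,
      nsmul_eq_mul]
    field_simp
  rw [exp_dd, h2, h3, h4]
  ring

theorem exp_ov_le {J : V → V → ℝ} (hJ : ∀ x y, 0 ≤ J x y) {t : ℝ} (ht : 0 ≤ t)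
    (A : Finset V) (hA : 0 < A.card) (c : ℝ) (hc : 0 ≤ c)
    (h : ∀ x ∈ A, ∀ y ∈ A, x ≠ y → gg J t x y ≤ c) :
    stirExp J t (fun g => ov A A g) ≤ 1 / A.card + c := by
  have hAR : (0 : ℝ) < A.card := by exact_mod_cast hA
  rw [exp_ov, div_le_iff₀ (by positivity)]
  have h1 : ∀ x ∈ A, ∑ y ∈ A, gg J t x y ≤ 1 + A.card * c := by
    intro x hx
    have h2 : ∀ y ∈ A, gg J t x y ≤ (if y = x then 1 else 0) + c := by
      intro y hy
      by_cases hyx : y = x
      · rw [if_pos hyx]
        have := gg_le_one hJ ht x y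
        linarith
      · rw [if_neg hyx, zero_add]
        exact h x hx y hy (Ne.symm hyx)
    refine (Finset.sum_le_sum h2).trans (le_of_eq ?_)
    rw [Finset.sum_add_distrib, Finset.sum_ite_eq', if_pos hx, Finset.sum_const, nsmul_eq_mul]
  refine (Finset.sum_le_sum h1).trans (le_of_eq ?_)
  rw [Finset.sum_const, nsmul_eq_mul]
  field_simp

/-- comparison of the ordered fractions of two sets -/
theorem lip_close {J : V → V → ℝ} (hJ : ∀ x y, 0 ≤ J x y) {t : ℝ} (ht : 0 ≤ t)
    (A B : Finset V) {m : ℕ} (f : (Fin m → ℝ) → ℝ) (Λ : ℝ) (hΛ : 0 ≤ Λ)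
    (hf : ∀ (u v : Fin m → ℝ) (e : ℝ), 0 ≤ e → (∀ i, |u i - v i| ≤ e) → |f u - f v| ≤ Λ * e) :
    |stirExp J t (fun g => f (fun i => top (bfrac A g) i)) -
      stirExp J t (fun g => f (fun i => top (bfrac B g) i))| ≤
      Λ * Real.sqrt (stirExp J t (fun g => dd A B g)) := by
  have h1 : |stirExp J t (fun g => f (fun i => top (bfrac A g) i)) -
      stirExp J t (fun g => f (fun i => top (bfrac B g) i))| ≤
      Λ * stirExp J t (fun g => Real.sqrt (dd A B g)) := by
    unfold stirExp
    rw [← Finset.sum_sub_distrib, Finset.mul_sum]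
    refine (Finset.abs_sum_le_sum_abs _ _).trans (Finset.sum_le_sum fun g _ => ?_)
    rw [← mul_sub, abs_mul, abs_of_nonneg (law_nonneg hJ ht g)]
    have h2 := hf (fun i => top (bfrac A g) i) (fun i => top (bfrac B g) i)
      (Real.sqrt (dd A B g)) (Real.sqrt_nonneg _) (fun i => top_close A B g i)
    calc stirLaw J t g * |f (fun i => top (bfrac A g) i) - f (fun i => top (bfrac B g) i)|
        ≤ stirLaw J t g * (Λ * Real.sqrt (dd A B g)) :=
          mul_le_mul_of_nonneg_left h2 (law_nonneg hJ ht g)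
      _ = _ := by ring
  refine h1.trans (mul_le_mul_of_nonneg_left ?_ hΛ)
  exact exp_sq_le hJ ht _ (fun g => dd_nonneg A B g)

end Pool.Agent.Q295.TP
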