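import Pool.Agent.Q295.TP.Core

/-!
# Functions of the cycles of `k` points at arbitrary positions
-/

set_option autoImplicit false

namespace Pool.Agent.Q295.TP

open Finset Equiv
open Pool.Agent.Y998.ST
open Pool.Agent.Y998.LP (NN bfrac NN_nonneg law_inv)
open Pool.Agent.Y998.CN (law_sum)
open Pool.Agent.TH268.PD (top Cyc cyOf ret ret_spec)

variable {V : Type} [Fintype V] [DecidableEq V]

/-- all related points are in the same cycle -/
def Ev {k : ℕ} {W : Type} (R : Fin k → Fin k → Prop) (g : Perm W) (c : Fin k → W) : Prop :=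
  ∀ i j, R i j → g.SameCycle (c i) (c j)

open Classical in
/-- indicator -/
noncomputable def ei {k : ℕ} (R : Fin k → Fin k → Prop) (g : Perm V) (c : Fin k → V) : ℝ :=
  if Ev R g c then 1 else 0

/-- probability that all related points are in the same cycle -/
noncomputable def PR (J : V → V → ℝ) (t : ℝ) {k : ℕ} (R : Fin k → Fin k → Prop)
    (c : Fin k → V) : ℝ := stirExp J t (fun g => ei R g c)

open Classical in
/-- the same for a uniform permutation of `k` points -/
noncomputable def uR {k : ℕ} (R : Fin k → Fin k → Prop) : ℝ :=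
  (∑ π : Perm (Fin k), if Ev R π id then (1 : ℝ) else 0) / (k.factorial : ℝ)

theorem ei_nonneg {k : ℕ} (R : Fin k → Fin k → Prop) (g : Perm V) (c : Fin k → V) :
    0 ≤ ei R g c := by unfold ei; split_ifs <;> norm_num

theorem ei_le_one {k : ℕ} (R : Fin k → Fin k → Prop) (g : Perm V) (c : Fin k → V) :
    ei R g c ≤ 1 := by unfold ei; split_ifs <;> norm_num

theorem PR_nonneg {J : V → V → ℝ} (hJ : ∀ x y, 0 ≤ J x y) {t : ℝ} (ht : 0 ≤ t) {k : ℕ}
    (R : Fin k → Fin k → Prop) (c : Fin k → V) : 0 ≤ PR J t R c :=
  exp_nonneg hJ ht fun g => ei_nonneg R g c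

theorem PR_le_one {J : V → V → ℝ} (hJ : ∀ x y, 0 ≤ J x y) {t : ℝ} (ht : 0 ≤ t) {k : ℕ}
    (R : Fin k → Fin k → Prop) (c : Fin k → V) : PR J t R c ≤ 1 := by
  unfold PR
  refine (exp_mono hJ ht fun g => ei_le_one R g c).trans ?_
  rw [exp_const]

theorem uR_nonneg {k : ℕ} (R : Fin k → Fin k → Prop) : 0 ≤ uR R := by
  unfold uR
  refine div_nonneg (Finset.sum_nonneg fun π _ => ?_) (Nat.cast_nonneg _)
  split_ifs <;> norm_num

theorem uR_le_one {k : ℕ} (R : Fin k → Fin k → Prop) : uR R ≤ 1 := by
  classical
  unfold uR
  have hk : (0 : ℝ) < k.factorial := by exact_mod_cast k.factorial_pos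
  rw [div_le_one hk]
  refine (Finset.sum_le_sum (g := fun _ => (1 : ℝ)) fun π _ => ?_).trans (le_of_eq ?_)
  · split_ifs <;> norm_num
  · rw [Finset.sum_const, Finset.card_univ, Fintype.card_perm, Fintype.card_fin, nsmul_eq_mul,
      mul_one]

/-! ### moving a point -/

theorem conj_tv (J : V → V → ℝ) (t : ℝ) (x y : V) :
    ∑ g, |stirLaw J t g - stirLaw J t (swap x y * g * (swap x y)⁻¹)| ≤ 2 * NN J t (swap x y) := by
  have h1 : ∀ g : Perm V, |stirLaw J t g - stirLaw J t (swap x y * g * (swap x y)⁻¹)| ≤
      |stirLaw J t g - stirLaw J t (g * (swap x y)⁻¹)| +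
        |stirLaw J t (g * (swap x y)⁻¹) - stirLaw J t (swap x y * (g * (swap x y)⁻¹))| := by
    intro g
    rw [mul_assoc]
    exact abs_sub_le _ _ _
  refine (Finset.sum_le_sum fun g _ => h1 g).trans ?_
  rw [Finset.sum_add_distrib]
  have h2 : ∑ g, |stirLaw J t g - stirLaw J t (g * (swap x y)⁻¹)| = NN J t (swap x y) := by
    unfold NN
    rw [← Equiv.sum_comp (Equiv.inv (Perm V))]
    refine Finset.sum_congr rfl fun g _ => ?_
    have e1 : (Equiv.inv (Perm V)) g = g⁻¹ := rfl
    rw [e1, law_inv, ← law_inv J t (g⁻¹ * (swap x y)⁻¹), mul_inv_rev, inv_inv, inv_inv, swap_inv,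
      abs_sub_comm]
  have h3 : ∑ g, |stirLaw J t (g * (swap x y)⁻¹) -
      stirLaw J t (swap x y * (g * (swap x y)⁻¹))| = NN J t (swap x y) := by
    unfold NN
    refine (Equiv.sum_comp (Equiv.mulRight (swap x y)⁻¹)
      (fun g => |stirLaw J t g - stirLaw J t (swap x y * g)|)).trans ?_
    refine Finset.sum_congr rfl fun g _ => ?_
    rw [swap_inv, abs_sub_comm]
  rw [h2, h3]
  linarith

theorem ei_conj {k : ℕ} (R : Fin k → Fin k → Prop) (g s : Perm V) (c : Fin k → V) :
    ei R (s * g * s⁻¹) (fun i => s (c i)) = ei R g c := by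
  unfold ei
  have h : Ev R (s * g * s⁻¹) (fun i => s (c i)) ↔ Ev R g c := by
    unfold Ev
    refine forall_congr' fun i => forall_congr' fun j => ?_
    have h1 : ∀ z, s⁻¹ (s z) = z := fun z => s.symm_apply_apply z
    rw [Perm.sameCycle_conj, h1, h1]
  by_cases hg : Ev R g c
  · rw [if_pos (h.2 hg), if_pos hg]
  · rw [if_neg (fun h' => hg (h.1 h')), if_neg hg]

theorem move {J : V → V → ℝ} (t : ℝ) {k : ℕ}
    (R : Fin k → Fin k → Prop) (b : Fin k → V) (i : Fin k) (v : V)
    (h : ∀ j, j ≠ i → b j ≠ b i ∧ b j ≠ v) :
    |PR J t R b - PR J t R (Function.update b i v)| ≤ 2 * NN J t (swap (b i) v) := by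
  have e1 : Function.update b i v = fun j => swap (b i) v (b j) := by
    funext j
    by_cases hj : j = i
    · subst hj
      rw [Function.update_self, swap_apply_left]
    · rw [Function.update_of_ne hj, swap_apply_of_ne_of_ne (h j hj).1 (h j hj).2]
  have e2 : PR J t R (Function.update b i v) =
      ∑ g, stirLaw J t (swap (b i) v * g * (swap (b i) v)⁻¹) * ei R g b := by
    unfold PR stirExp
    rw [← Equiv.sum_comp (MulAut.conj (swap (b i) v)).toEquiv]
    refine Finset.sum_congr rfl fun g _ => ?_
    have e3 : (MulAut.conj (swap (b i) v)).toEquiv g = swap (b i) v * g * (swap (b i) v)⁻¹ := rfl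
    rw [e3, e1]
    beta_reduce
    rw [ei_conj]
  rw [e2]
  unfold PR stirExp
  rw [← Finset.sum_sub_distrib]
  refine (Finset.abs_sum_le_sum_abs _ _).trans ((Finset.sum_le_sum fun g _ => ?_).trans
    (conj_tv J t (b i) v))
  rw [← sub_mul, abs_mul, abs_of_nonneg (ei_nonneg R g b)]
  exact mul_le_of_le_one_right (abs_nonneg _) (ei_le_one R g b)

/-- moving all points -/
theorem move_all {J : V → V → ℝ} (t : ℝ) {k : ℕ} (R : Fin k → Fin k → Prop) (b c : Fin k → V)
    (hb : ∀ i j, i ≠ j → b i ≠ b j) (hc : ∀ i j, i ≠ j → c i ≠ c j)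
    (hbc : ∀ i j, i ≠ j → c i ≠ b j) (η : ℝ) (h : ∀ i, NN J t (swap (b i) (c i)) ≤ η) :
    |PR J t R b - PR J t R c| ≤ k * (2 * η) := by
  obtain ⟨md, hmd⟩ : ∃ md : ℕ → Fin k → V, md = fun (j : ℕ) (i : Fin k) => if (i : ℕ) < j then c i else b i :=
    ⟨_, rfl⟩
  have h0 : md 0 = b := by
    rw [hmd]
    funext i
    simp
  have hk : md k = c := by
    rw [hmd]
    funext i
    simp
  have hstep : ∀ j : ℕ, j ≤ k → |PR J t R b - PR J t R (md j)| ≤ j * (2 * η) := by
    intro j
    induction j with
    | zero => intro _; rw [h0, sub_self, abs_zero]; simp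
    | succ j ih =>
      intro hj
      have h1 := ih (by omega)
      obtain ⟨jj, hjj⟩ : ∃ jj : Fin k, (jj : ℕ) = j := ⟨⟨j, by omega⟩, rfl⟩
      have e1 : md (j + 1) = Function.update (md j) jj (c jj) := by
        funext i
        by_cases hi : i = jj
        · subst hi
          rw [Function.update_self, hmd]
          beta_reduce
          rw [if_pos (by omega)]
        · rw [Function.update_of_ne hi, hmd]
          beta_reduce
          have hi' : (i : ℕ) ≠ j := fun h' => hi (Fin.ext (by rw [h', hjj]))
          by_cases h2 : (i : ℕ) < j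
          · rw [if_pos h2, if_pos (by omega)]
          · rw [if_neg h2, if_neg (by omega)]
      have e2 : md j jj = b jj := by
        rw [hmd]
        beta_reduce
        rw [if_neg (by omega)]
      have h2 := move (J := J) t R (md j) jj (c jj) (by
        intro l hl
        rw [e2]
        rw [hmd]
        beta_reduce
        split_ifs with h3
        · exact ⟨hbc l jj hl, hc l jj hl⟩
        · exact ⟨hb l jj hl, fun h4 => hbc jj l (Ne.symm hl) h4.symm⟩)
      rw [← e1, e2] at h2
      have h3 := h jj
      push_cast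
      have h4 := abs_sub_le (PR J t R b) (PR J t R (md j)) (PR J t R (md (j + 1)))
      linarith
  have h5 := hstep k le_rfl
  rwa [hk] at h5

/-! ### averaging one coordinate -/

theorem coord {k : ℕ} (R : Fin k → Fin k → Prop) (g : Perm V) (c : Fin k → V) (i : Fin k)
    (A B : Finset V) (hA : 0 < A.card) (hB : 0 < B.card) :
    |(∑ x ∈ A, ei R g (Function.update c i x)) / A.card -
      (∑ x ∈ B, ei R g (Function.update c i x)) / B.card| ≤ Real.sqrt (dd A B g) := by
  classical
  have hAR : (0 : ℝ) < A.card := by exact_mod_cast hA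
  have hBR : (0 : ℝ) < B.card := by exact_mod_cast hB
  by_cases h : ∃ j, j ≠ i ∧ (R i j ∨ R j i)
  · obtain ⟨j, hj, hR⟩ := h
    obtain ⟨κ, hκ0, hκ1, hκ⟩ : ∃ κ : ℝ, 0 ≤ κ ∧ κ ≤ 1 ∧ ∀ x, ei R g (Function.update c i x) =
        κ * (if cyOf g x = cyOf g (c j) then (1 : ℝ) else 0) := by
      by_cases hP : ∃ x0, Ev R g (Function.update c i x0)
      · obtain ⟨x0, hx0⟩ := hP
        have key : ∀ x1, Ev R g (Function.update c i x1) → g.SameCycle x1 (c j) := by
          intro x1 hx1
          rcases hR with hR | hR
          · have := hx1 i j hR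
            rwa [Function.update_self, Function.update_of_ne hj] at this
          · have := hx1 j i hR
            rw [Function.update_self, Function.update_of_ne hj] at this
            exact this.symm
        refine ⟨1, zero_le_one, le_rfl, fun x => ?_⟩
        rw [one_mul]
        unfold ei
        have hiff : Ev R g (Function.update c i x) ↔ cyOf g x = cyOf g (c j) := by
          rw [cy_iff]
          constructor
          · exact key x
          · intro hx a b' hab
            have hxx0 : g.SameCycle x x0 := hx.trans (key x0 hx0).symm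
            have h1 := hx0 a b' hab
            by_cases ha : a = i
            · by_cases hb' : b' = i
              · rw [ha, hb']
              · rw [ha, Function.update_self, Function.update_of_ne hb'] at h1
                rw [ha, Function.update_self, Function.update_of_ne hb']
                exact hxx0.trans h1
            · by_cases hb' : b' = i
              · rw [hb', Function.update_self, Function.update_of_ne ha] at h1
                rw [hb', Function.update_self, Function.update_of_ne ha]
                exact h1.trans hxx0.symm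
              · rw [Function.update_of_ne ha, Function.update_of_ne hb'] at h1
                rw [Function.update_of_ne ha, Function.update_of_ne hb']
                exact h1
        simp only [hiff]
      · refine ⟨0, le_rfl, zero_le_one, fun x => ?_⟩
        rw [zero_mul]
        unfold ei
        rw [if_neg (fun h => hP ⟨x, h⟩)]
    have h1 : ∀ S : Finset V, (∑ x ∈ S, ei R g (Function.update c i x)) / S.card =
        κ * bfrac S g (cyOf g (c j)) := by
      intro S
      rw [bfrac_eq, Finset.sum_congr rfl fun x _ => hκ x, ← Finset.mul_sum, mul_div_assoc]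
    rw [h1, h1, ← mul_sub, abs_mul, abs_of_nonneg hκ0]
    calc κ * |bfrac A g (cyOf g (c j)) - bfrac B g (cyOf g (c j))|
        ≤ 1 * |bfrac A g (cyOf g (c j)) - bfrac B g (cyOf g (c j))| :=
          mul_le_mul_of_nonneg_right hκ1 (abs_nonneg _)
      _ ≤ _ := by rw [one_mul]; exact frac_close A B g _
  · push Not at h
    have h1 : ∀ x y, ei R g (Function.update c i x) = ei R g (Function.update c i y) := by
      intro x y
      have h2 : ∀ x y, Ev R g (Function.update c i x) → Ev R g (Function.update c i y) := by
        intro x y hx a b' hab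
        have h3 := hx a b' hab
        by_cases ha : a = i
        · by_cases hb' : b' = i
          · rw [ha, hb']
          · exact absurd (ha ▸ hab) (h b' hb').1
        · by_cases hb' : b' = i
          · exact absurd (hb' ▸ hab) (h a ha).2
          · rw [Function.update_of_ne ha, Function.update_of_ne hb'] at h3
            rw [Function.update_of_ne ha, Function.update_of_ne hb']
            exact h3
      unfold ei
      have h4 : Ev R g (Function.update c i x) ↔ Ev R g (Function.update c i y) :=
        ⟨h2 x y, h2 y x⟩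
      simp only [h4]
    have h5 : ∀ S : Finset V, 0 < S.card → (∑ x ∈ S, ei R g (Function.update c i x)) / S.card =
        ei R g (Function.update c i (c i)) := by
      intro S hS
      have hSR : (0 : ℝ) < S.card := by exact_mod_cast hS
      rw [Finset.sum_congr rfl fun x _ => h1 x (c i), Finset.sum_const, nsmul_eq_mul]
      field_simp
    rw [h5 A hA, h5 B hB, sub_self, abs_zero]
    exact Real.sqrt_nonneg _

/-! ### averaging over products -/

/-- double counting -/
theorem dcount {k : ℕ} (A : Fin k → Finset V) (i : Fin k) (B : Finset V)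
    (F : (Fin k → V) → ℝ) :
    ∑ c ∈ Fintype.piFinset A, ∑ x ∈ B, F (Function.update c i x) =
      (A i).card * ∑ c ∈ Fintype.piFinset (Function.update A i B), F c := by
  classical
  have h1 : ((A i).card : ℝ) * ∑ c ∈ Fintype.piFinset (Function.update A i B), F c =
      ∑ c ∈ Fintype.piFinset (Function.update A i B), ∑ _a ∈ A i, F c := by
    rw [Finset.mul_sum]
    refine Finset.sum_congr rfl fun c _ => ?_
    rw [Finset.sum_const, nsmul_eq_mul]
  rw [h1, ← Finset.sum_product', ← Finset.sum_product']
  refine Finset.sum_bij' (fun p _ => (Function.update p.1 i p.2, p.1 i))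
    (fun p _ => (Function.update p.1 i p.2, p.1 i)) ?_ ?_ ?_ ?_ ?_
  · rintro ⟨c, x⟩ h
    simp only [Finset.mem_product, Fintype.mem_piFinset] at h ⊢
    refine ⟨fun j => ?_, h.1 i⟩
    by_cases hj : j = i
    · subst hj; simpa using h.2
    · simpa [hj] using h.1 j
  · rintro ⟨c, x⟩ h
    simp only [Finset.mem_product, Fintype.mem_piFinset] at h ⊢
    refine ⟨fun j => ?_, by simpa using h.1 i⟩
    by_cases hj : j = i
    · subst hj; simpa using h.2
    · simpa [hj] using h.1 j
  · rintro ⟨c, x⟩ _
    simp
  · rintro ⟨c, x⟩ _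
    simp
  · rintro ⟨c, x⟩ _
    rfl

theorem card_upd {k : ℕ} (A : Fin k → Finset V) (i : Fin k) (B : Finset V) :
    ((Fintype.piFinset A).card : ℝ) * B.card =
      (A i).card * (Fintype.piFinset (Function.update A i B)).card := by
  have h := dcount A i B (fun _ => 1)
  simpa using h

/-- average over a product -/
noncomputable def av {k : ℕ} (A : Fin k → Finset V) (F : (Fin k → V) → ℝ) : ℝ :=
  (∑ c ∈ Fintype.piFinset A, F c) / (Fintype.piFinset A).card

theorem pi_pos {k : ℕ} {A : Fin k → Finset V} (hA : ∀ i, 0 < (A i).card) :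
    (0 : ℝ) < (Fintype.piFinset A).card := by
  rw [Fintype.card_piFinset]
  push_cast
  exact Finset.prod_pos fun i _ => by exact_mod_cast hA i

theorem av_upd {k : ℕ} {A : Fin k → Finset V} (hA : ∀ i, 0 < (A i).card) (i : Fin k)
    (B : Finset V) (hB : 0 < B.card) (F : (Fin k → V) → ℝ) :
    av (Function.update A i B) F =
      av A (fun c => (∑ x ∈ B, F (Function.update c i x)) / B.card) := by
  have hBR : (0 : ℝ) < B.card := by exact_mod_cast hB
  have hAR : (0 : ℝ) < (A i).card := by exact_mod_cast hA i
  have h1 := dcount A i B F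
  have h2 := card_upd A i B
  have h3 := pi_pos hA
  have h4 : (0 : ℝ) < (Fintype.piFinset (Function.update A i B)).card := by
    refine pi_pos fun j => ?_
    by_cases hj : j = i
    · subst hj; simpa using hB
    · simpa [hj] using hA j
  unfold av
  rw [← Finset.sum_div, h1, div_div, div_eq_div_iff h4.ne' (by positivity)]
  rw [mul_comm (B.card : ℝ), h2]
  ring

theorem av_self {k : ℕ} {A : Fin k → Finset V} (hA : ∀ i, 0 < (A i).card) (i : Fin k)
    (F : (Fin k → V) → ℝ) :
    av A F = av A (fun c => (∑ x ∈ A i, F (Function.update c i x)) / (A i).card) := by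
  have h := av_upd hA i (A i) (hA i) F
  rwa [Function.update_eq_self] at h

theorem av_diff {k : ℕ} {A : Fin k → Finset V} (hA : ∀ i, 0 < (A i).card)
    {F G : (Fin k → V) → ℝ} {c : ℝ} (h : ∀ b ∈ Fintype.piFinset A, |F b - G b| ≤ c) :
    |av A F - av A G| ≤ c := by
  unfold av
  have h1 := pi_pos hA
  rw [← sub_div, ← Finset.sum_sub_distrib, abs_div, abs_of_pos h1, div_le_iff₀ h1]
  refine (Finset.abs_sum_le_sum_abs _ _).trans ((Finset.sum_le_sum h).trans (le_of_eq ?_))
  rw [Finset.sum_const, nsmul_eq_mul, mul_comm]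

/-- replacing one set -/
theorem av_coord {k : ℕ} (R : Fin k → Fin k → Prop) (g : Perm V) {A : Fin k → Finset V}
    (hA : ∀ i, 0 < (A i).card) (i : Fin k) (B : Finset V) (hB : 0 < B.card) :
    |av A (ei R g) - av (Function.update A i B) (ei R g)| ≤ Real.sqrt (dd (A i) B g) := by
  rw [av_upd hA i B hB, av_self hA i]
  exact av_diff hA fun c _ => coord R g c i (A i) B (hA i) hB

/-- replacing all sets by `B` -/
theorem av_all {k : ℕ} (R : Fin k → Fin k → Prop) (g : Perm V) {A : Fin k → Finset V}
    (hA : ∀ i, 0 < (A i).card) (B : Finset V) (hB : 0 < B.card) :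
    |av A (ei R g) - av (fun _ => B) (ei R g)| ≤ ∑ i, Real.sqrt (dd (A i) B g) := by
  obtain ⟨md, hmd⟩ : ∃ md : ℕ → Fin k → Finset V, md = fun (j : ℕ) (i : Fin k) => if (i : ℕ) < j then B else A i :=
    ⟨_, rfl⟩
  have h0 : md 0 = A := by
    rw [hmd]
    funext i
    simp
  have hk : md k = fun _ => B := by
    rw [hmd]
    funext i
    simp
  have hpos : ∀ j i, 0 < (md j i).card := by
    intro j i
    rw [hmd]
    beta_reduce
    split_ifs
    · exact hB
    · exact hA i
  have hstep : ∀ j : ℕ, j ≤ k → |av A (ei R g) - av (md j) (ei R g)| ≤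
      ∑ i : Fin k, if (i : ℕ) < j then Real.sqrt (dd (A i) B g) else 0 := by
    intro j
    induction j with
    | zero => intro _; rw [h0, sub_self, abs_zero]; simp
    | succ j ih =>
      intro hj
      have h1 := ih (by omega)
      obtain ⟨jj, hjj⟩ : ∃ jj : Fin k, (jj : ℕ) = j := ⟨⟨j, by omega⟩, rfl⟩
      have e1 : md (j + 1) = Function.update (md j) jj B := by
        funext i
        by_cases hi : i = jj
        · subst hi
          rw [Function.update_self, hmd]
          beta_reduce
          rw [if_pos (by omega)]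
        · rw [Function.update_of_ne hi, hmd]
          beta_reduce
          have hi' : (i : ℕ) ≠ j := fun h' => hi (Fin.ext (by rw [h', hjj]))
          by_cases h2 : (i : ℕ) < j
          · rw [if_pos h2, if_pos (by omega)]
          · rw [if_neg h2, if_neg (by omega)]
      have e2 : md j jj = A jj := by
        rw [hmd]
        beta_reduce
        rw [if_neg (by omega)]
      have h2 := av_coord R g (hpos j) jj B hB
      rw [← e1, e2] at h2
      have h3 : (∑ i : Fin k, if (i : ℕ) < j + 1 then Real.sqrt (dd (A i) B g) else 0) =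
          (∑ i : Fin k, if (i : ℕ) < j then Real.sqrt (dd (A i) B g) else 0) +
            Real.sqrt (dd (A jj) B g) := by
        have h4 : ∀ i : Fin k, (if (i : ℕ) < j + 1 then Real.sqrt (dd (A i) B g) else 0) =
            (if (i : ℕ) < j then Real.sqrt (dd (A i) B g) else 0) +
              (if i = jj then Real.sqrt (dd (A i) B g) else 0) := by
          intro i
          by_cases hi : i = jj
          · subst hi
            rw [if_pos (by omega), if_neg (by omega), if_pos rfl, zero_add]
          · have hi' : (i : ℕ) ≠ j := fun h' => hi (Fin.ext (by rw [h', hjj]))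
            rw [if_neg hi, add_zero]
            by_cases h2 : (i : ℕ) < j
            · rw [if_pos h2, if_pos (by omega)]
            · rw [if_neg h2, if_neg (by omega)]
        rw [Finset.sum_congr rfl fun i _ => h4 i, Finset.sum_add_distrib,
          Finset.sum_ite_eq' Finset.univ jj, if_pos (Finset.mem_univ _)]
      rw [h3]
      have h4 := abs_sub_le (av A (ei R g)) (av (md j) (ei R g)) (av (md (j + 1)) (ei R g))
      linarith
  have h5 := hstep k le_rfl
  rw [hk] at h5
  refine h5.trans (le_of_eq ?_)
  exact Finset.sum_congr rfl fun i _ => by rw [if_pos i.2]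

/-! ### coincidences -/

open Classical in
theorem av_coin {k : ℕ} {A : Fin k → Finset V} (hA : ∀ i, 0 < (A i).card) (i : Fin k)
    (h : (Fin k → V) → V) (hh : ∀ c x, h (Function.update c i x) = h c) :
    av A (fun c => if c i = h c then (1 : ℝ) else 0) ≤ 1 / (A i).card := by
  have hAR : (0 : ℝ) < (A i).card := by exact_mod_cast hA i
  have hP := pi_pos hA
  rw [av_self hA i]
  unfold av
  rw [div_le_iff₀ hP, ← Finset.sum_div]
  have h1 : ∀ c : Fin k → V, ∑ x ∈ A i, (if Function.update c i x i =
      h (Function.update c i x) then (1 : ℝ) else 0) ≤ 1 := by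
    intro c
    simp only [Function.update_self, hh]
    rw [Finset.sum_ite_eq']
    split_ifs <;> norm_num
  rw [div_le_iff₀ hAR]
  refine (Finset.sum_le_sum fun c _ => h1 c).trans (le_of_eq ?_)
  rw [Finset.sum_const, nsmul_eq_mul]
  field_simp

end Pool.Agent.Q295.TP
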